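import Pool.Agent.H61.AR.Targets

/-!
# Rows SNZ and UMC of arq_modules (MP_d9d403_gt)
-/

set_option autoImplicit false

open Set Function MeasureTheory Filter Topology
open scoped Manifold ContDiff Matrix

namespace Pool.Agent.H97.AR

open Pool.Agent.H61.AR Pool.Agent.H60.CM

theorem pf_SNZ (h1 : T_FLU) (h2 : T_NRM) (h3 : T_CSI) : T_SNZ := by
  intro D γ s hB hG
  obtain ⟨-, hf⟩ := h1 D γ s hB hG
  obtain ⟨hc1, hc2, hu, -⟩ := h2 D γ hB
  have hs := hG.1
  rcases eq_or_ne s 0 with h0 | h0
  · rw [h0, zero_mul]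
    positivity
  · have h4 : ∫ θ in (0 : ℝ)..(2 * Real.pi), nr D γ θ = -(2 * Real.pi * (D.H * D.r)) := by
      rcases mul_eq_zero.1 hf with h | h
      · exact absurd h h0
      · linarith
    have h5 := h3 (nr D γ) (nz D γ) (D.H * D.r) hc1 hc2 hu h4
    have h6 : (1 : ℝ) - (D.H * D.r) ^ 2 = 1 - D.r ^ 2 * D.H ^ 2 := by ring
    rw [h6] at h5
    refine le_trans ?_ h5
    refine le_trans (le_abs_self _) ?_
    rw [abs_mul]
    exact mul_le_of_le_one_left (abs_nonneg _) hs

theorem pf_UMC : T_UMC := by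
  intro D h
  have hr := D.cmc.r_pos
  have hun := D.cmc.unit
  have key : ∀ c : V3, c ∈ circ D.r → ∀ p, 2 * ((D.x p 0 - c 0) * D.N p 0 +
      (D.x p 1 - c 1) * D.N p 1 + (D.x p 2 - c 2) * D.N p 2) + D.H * ((D.x p 0 - c 0) ^ 2 +
      (D.x p 1 - c 1) ^ 2 + (D.x p 2 - c 2) ^ 2) = 0 := by
    intro c hc p
    have h1 := h c hc p
    simp only [gz, sqd, dotProduct, Fin.sum_univ_three, Pi.sub_apply] at h1
    linarith
  have hu : ∀ p, D.N p 0 ^ 2 + D.N p 1 ^ 2 + D.N p 2 ^ 2 = 1 := by
    intro p
    have h1 := hun p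
    simp only [dotProduct, Fin.sum_univ_three] at h1
    linarith
  have c1 : (![D.r, 0, 0] : V3) ∈ circ D.r := by
    constructor
    · simp
    · simp only [dotProduct, Fin.sum_univ_three]
      simp
      ring
  have c2 : (![-D.r, 0, 0] : V3) ∈ circ D.r := by
    constructor
    · simp
    · simp only [dotProduct, Fin.sum_univ_three]
      simp
      ring
  have c3 : (![0, D.r, 0] : V3) ∈ circ D.r := by
    constructor
    · simp
    · simp only [dotProduct, Fin.sum_univ_three]
      simp
      ring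
  have c4 : (![0, -D.r, 0] : V3) ∈ circ D.r := by
    constructor
    · simp
    · simp only [dotProduct, Fin.sum_univ_three]
      simp
      ring
  have k0 : ∀ p, D.N p 0 + D.H * D.x p 0 = 0 := by
    intro p
    have h1 := key _ c1 p
    have h2 := key _ c2 p
    simp at h1 h2
    have h3 : D.r * (D.N p 0 + D.H * D.x p 0) = 0 := by linarith
    rcases mul_eq_zero.1 h3 with h4 | h4
    · exact absurd h4 hr.ne'
    · exact h4
  have k1 : ∀ p, D.N p 1 + D.H * D.x p 1 = 0 := by
    intro p
    have h1 := key _ c3 p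
    have h2 := key _ c4 p
    simp at h1 h2
    have h3 : D.r * (D.N p 1 + D.H * D.x p 1) = 0 := by linarith
    rcases mul_eq_zero.1 h3 with h4 | h4
    · exact absurd h4 hr.ne'
    · exact h4
  set z : D.S → ℝ := fun p => D.N p 2 + D.H * D.x p 2 with hz
  have hz2 : ∀ p, z p ^ 2 = 1 - D.r ^ 2 * D.H ^ 2 := by
    intro p
    have h1 := key _ c1 p
    have a0 := k0 p
    have a1 := k1 p
    have au := hu p
    simp at h1
    have e0 : D.N p 0 = -(D.H * D.x p 0) := by linarith
    have e1 : D.N p 1 = -(D.H * D.x p 1) := by linarith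
    simp only [hz]
    rw [e0, e1] at h1
    rw [e0, e1] at au
    linear_combination au + D.H * h1
  have hzc : Continuous z := by
    have hx : Continuous D.x := D.cmc.x_smooth.continuous
    have hN : Continuous D.N := D.cmc.N_smooth.continuous
    exact ((continuous_apply 2).comp hN).add (continuous_const.mul ((continuous_apply 2).comp hx))
  obtain ⟨p0⟩ : Nonempty D.S := inferInstance
  refine ⟨z p0, hz2 p0, fun p => ?_⟩
  have hconst : z p = z p0 := by
    rcases eq_or_ne (z p0) 0 with h0 | h0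
    · have h1 : z p ^ 2 = z p0 ^ 2 := by rw [hz2, hz2]
      rw [h0] at h1 ⊢
      simpa using h1
    · have h1 : ∀ q, z q ^ 2 = z p0 ^ 2 := fun q => by rw [hz2, hz2]
      have h2 : ∀ q, z q = z p0 ∨ z q = -z p0 := fun q => sq_eq_sq_iff_eq_or_eq_neg.1 (h1 q)
      by_contra hne
      have h3 : z p = -z p0 := (h2 p).resolve_left hne
      have h4 : IsPreconnected (Set.univ : Set D.S) := isPreconnected_univ
      have h5 : (0 : ℝ) ∈ z '' Set.univ := by
        have h6 := h4.image z hzc.continuousOn
        have h7 : z p0 ∈ z '' Set.univ := ⟨p0, mem_univ _, rfl⟩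
        have h8 : -z p0 ∈ z '' Set.univ := ⟨p, mem_univ _, h3⟩
        have h9 := h6.ordConnected
        rcases lt_or_gt_of_ne h0 with hlt | hgt
        · exact h9.out h7 h8 ⟨hlt.le, by linarith⟩
        · exact h9.out h8 h7 ⟨by linarith, hgt.le⟩
      obtain ⟨q, -, hq⟩ := h5
      rcases h2 q with h6 | h6
      · exact h0 (by rw [← h6, hq])
      · exact h0 (by linarith [h6, hq])
  funext i
  fin_cases i
  · simpa using k0 p
  · simpa using k1 p
  · have := hconst
    simp only [hz] at this
    simpa using this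

end Pool.Agent.H97.AR
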